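import Pool.Agent.H.MP_656320_nt.NS.Df
import Pool.Agent.H.MP_656320_nt.LS.AvA

/-!
# NS/A: the upper bound in Mertens' theorem

`∑ over the primes p ≤ u of log p / p ≤ log u + O(1)`. Proof: `log (u!) = ∑ d ≤ u, Λ d * ⌊u / d⌋` (sum `log m = ∑ d ∣ m, Λ d` over `m ≤ u`;
or keep only the primes: `∑ p ≤ u, log p * ⌊u / p⌋ ≤ log (u!) ≤ u log u`), and `⌊u / p⌋ ≥ u / p - 1`, and `∑ p ≤ u, log p ≤ log 4 * u`
(Chebyshev, in Mathlib: `Chebyshev.theta_le_log4_mul_x` or `primorial_le_4_pow`). For the first inequality: `LS.AvA_swap` with `f = 1`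
gives `∑ m ≤ u, log m = ∑ d ≤ u, Λ d * ∑ k ≤ u / d, 1`; drop the `d` which are not prime.
-/

namespace Pool.Agent.H.MP_656320_nt.NS

open Finset Filter Topology Pool.Agent.H.MP_656320_nt Pool.Agent.H.MP_656320_nt.LS

theorem cheb (u : ℕ) : ∑ p ∈ (Icc 1 u).filter Nat.Prime, Real.log p ≤ 2 * u := by
  have h1 : (Icc 1 u).filter Nat.Prime = (range (u + 1)).filter Nat.Prime := by
    ext p
    rw [Finset.mem_filter, Finset.mem_filter, Finset.mem_Icc, Finset.mem_range]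
    constructor
    · rintro ⟨⟨_, h2⟩, h3⟩
      exact ⟨by omega, h3⟩
    · rintro ⟨h2, h3⟩
      exact ⟨⟨h3.pos, by omega⟩, h3⟩
  rw [h1]
  have h2 : ∑ p ∈ (range (u + 1)).filter Nat.Prime, Real.log p = Real.log (primorial u : ℕ) := by
    unfold primorial
    rw [Nat.cast_prod, Real.log_prod]
    intro p hp
    exact_mod_cast (Finset.mem_filter.1 hp).2.ne_zero
  rw [h2]
  have h3 : ((primorial u : ℕ) : ℝ) ≤ 4 ^ u := by
    exact_mod_cast primorial_le_four_pow u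
  have h4 : (0 : ℝ) < ((primorial u : ℕ) : ℝ) := by
    exact_mod_cast primorial_pos u
  refine (Real.log_le_log h4 h3).trans ?_
  rw [Real.log_pow]
  have h5 : Real.log 4 ≤ 2 := by
    have h6 : Real.log 4 = 2 * Real.log 2 := by
      rw [show (4 : ℝ) = 2 ^ 2 by norm_num, Real.log_pow]
      norm_num
    rw [h6]
    have := Real.log_two_lt_d9
    linarith
  have h6 : (0 : ℝ) ≤ u := Nat.cast_nonneg u
  nlinarith

theorem mert : ∃ C : ℝ, 0 ≤ C ∧ ∀ u : ℕ, 1 ≤ u →
    ∑ p ∈ (Icc 1 u).filter Nat.Prime, Real.log p / p ≤ Real.log u + C := by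
  refine ⟨2, by norm_num, fun u hu => ?_⟩
  have hu0 : (0 : ℝ) < u := by exact_mod_cast hu
  have h1 := AvA_swap (fun _ => (1 : ℝ)) u
  have h2 : ∑ m ∈ Icc 1 u, (1 : ℝ) * Real.log m ≤ u * Real.log u := by
    have h3 : ∀ m ∈ Icc 1 u, (1 : ℝ) * Real.log m ≤ Real.log u := by
      intro m hm
      rw [Finset.mem_Icc] at hm
      rw [one_mul]
      have h4 : (0 : ℝ) < m := by exact_mod_cast hm.1
      exact Real.log_le_log h4 (by exact_mod_cast hm.2)
    refine (Finset.sum_le_sum h3).trans ?_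
    rw [Finset.sum_const, Nat.card_Icc, Nat.add_sub_cancel, nsmul_eq_mul]
  have h3 : ∑ p ∈ (Icc 1 u).filter Nat.Prime, Real.log p * ((u : ℝ) / p - 1) ≤
      ∑ d ∈ Icc 1 u, ArithmeticFunction.vonMangoldt d * ∑ _k ∈ Icc 1 (u / d), (1 : ℝ) := by
    have h4 : ∑ p ∈ (Icc 1 u).filter Nat.Prime,
        ArithmeticFunction.vonMangoldt p * ∑ _k ∈ Icc 1 (u / p), (1 : ℝ) ≤
        ∑ d ∈ Icc 1 u, ArithmeticFunction.vonMangoldt d * ∑ _k ∈ Icc 1 (u / d), (1 : ℝ) :=
      Finset.sum_le_sum_of_subset_of_nonneg (Finset.filter_subset _ _) fun d _ _ =>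
        mul_nonneg ArithmeticFunction.vonMangoldt_nonneg (Finset.sum_nonneg fun _ _ => zero_le_one)
    refine le_trans (Finset.sum_le_sum fun p hp => ?_) h4
    have hp' := (Finset.mem_filter.1 hp).2
    rw [ArithmeticFunction.vonMangoldt_apply_prime hp']
    refine mul_le_mul_of_nonneg_left ?_ (Real.log_natCast_nonneg p)
    rw [Finset.sum_const, Nat.card_Icc, Nat.add_sub_cancel, nsmul_eq_mul, mul_one]
    have hp0 : (0 : ℝ) < p := by exact_mod_cast hp'.pos
    have h5 : u < (u / p + 1) * p := by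
      rw [mul_comm]
      exact Nat.lt_mul_div_succ u hp'.pos
    have h6 : (u : ℝ) < (((u / p : ℕ) : ℝ) + 1) * p := by exact_mod_cast h5
    rw [← div_lt_iff₀ hp0] at h6
    linarith
  have h4 : ∑ p ∈ (Icc 1 u).filter Nat.Prime, Real.log p * ((u : ℝ) / p - 1) =
      u * ∑ p ∈ (Icc 1 u).filter Nat.Prime, Real.log p / p -
        ∑ p ∈ (Icc 1 u).filter Nat.Prime, Real.log p := by
    rw [Finset.mul_sum, ← Finset.sum_sub_distrib]
    refine Finset.sum_congr rfl fun p _ => ?_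
    ring
  have h5 := cheb u
  have h6 : u * ∑ p ∈ (Icc 1 u).filter Nat.Prime, Real.log p / p ≤ u * (Real.log u + 2) := by
    rw [h4] at h3
    rw [← h1] at h3
    linarith
  exact le_of_mul_le_mul_left h6 hu0

end Pool.Agent.H.MP_656320_nt.NS
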