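import Pool.Agent.H.MP_656320_nt.NS.Df

/-!
# NS/B: `∑ k ≤ u, f k / k ≥ -1` for real multiplicative `f` on the squarefree numbers

Proof: `(1 * f)(n) = ∑ d ∣ n, f d ≥ 0` for all `n ≥ 1` (it is multiplicative and its value at a prime power `p ^ j` is `1 + f p ≥ 0`; if `f 1 = 0`
then `f = 0` and all is trivial; otherwise `f 1 = 1`). Hence `0 ≤ ∑ n ≤ u, ∑ d ∣ n, f d = ∑ d ≤ u, f d * ⌊u / d⌋ ≤ u * ∑ d ≤ u, f d / d + u`,
as `|f d| ≤ 1`.
-/

namespace Pool.Agent.H.MP_656320_nt.NS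

open Finset Filter Topology Pool.Agent.H.MP_656320_nt Pool.Agent.H.MP_656320_nt.LS

private theorem B_sum {f : ℕ → ℝ} (hf : Mu f) {m n : ℕ} (h : Nat.Coprime m n) :
    ∑ d ∈ (m * n).divisors, f d = (∑ a ∈ m.divisors, f a) * ∑ b ∈ n.divisors, f b := by
  rw [Nat.divisors_mul, Finset.mul_def, Finset.sum_image (Nat.Coprime.mul_injOn_divisors h),
    Finset.sum_product, Finset.sum_mul_sum]
  refine Finset.sum_congr rfl fun a ha => Finset.sum_congr rfl fun b hb => ?_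
  exact hf.mul a b (Nat.Coprime.coprime_dvd_left (Nat.dvd_of_mem_divisors ha)
    (Nat.Coprime.coprime_dvd_right (Nat.dvd_of_mem_divisors hb) h))

private theorem B_pow {f : ℕ → ℝ} (hs : ∀ m, ¬ Squarefree m → f m = 0) {p : ℕ} (hp : p.Prime)
    (j : ℕ) : ∑ d ∈ (p ^ (j + 1)).divisors, f d = f 1 + f p := by
  rw [Nat.sum_divisors_prime_pow hp]
  induction j with
  | zero =>
    rw [Finset.sum_range_succ, Finset.sum_range_one, pow_zero, pow_one]
  | succ j ih =>
    rw [Finset.sum_range_succ, ih, hs (p ^ (j + 1 + 1)), add_zero]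
    intro h
    have h1 := (Nat.squarefree_iff_prime_squarefree.1 h) p hp
    apply h1
    rw [← sq]
    exact pow_dvd_pow p (by omega)

theorem conv_nonneg {f : ℕ → ℝ} (hf : Mu f) (hs : ∀ m, ¬ Squarefree m → f m = 0) {n : ℕ} (hn : 1 ≤ n) :
    0 ≤ ∑ d ∈ n.divisors, f d := by
  have h11 : f 1 = f 1 * f 1 := by
    have h := hf.mul 1 1 (Nat.coprime_one_right 1)
    rwa [one_mul] at h
  have h1 : f 1 = 0 ∨ f 1 = 1 := by
    have h : f 1 * (f 1 - 1) = 0 := by linarith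
    rcases mul_eq_zero.1 h with h | h
    · exact Or.inl h
    · exact Or.inr (by linarith)
  rcases h1 with h1 | h1
  · have h0 : ∀ m, f m = 0 := by
      intro m
      have h := hf.mul 1 m (Nat.coprime_one_left m)
      rw [one_mul, h1, zero_mul] at h
      exact h
    simp [h0]
  · clear hn
    induction n using Nat.recOnPosPrimePosCoprime with
    | prime_pow p j hp hj =>
      obtain ⟨i, rfl⟩ : ∃ i, j = i + 1 := ⟨j - 1, by omega⟩
      rw [B_pow hs hp, h1]
      have h2 := (abs_le.1 (hf.le p)).1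
      linarith
    | zero => simp
    | one => simp [h1]
    | coprime a b _ _ hab iha ihb =>
      rw [B_sum hf hab]
      exact mul_nonneg iha ihb

theorem low {f : ℕ → ℝ} (hf : Mu f) (hs : ∀ m, ¬ Squarefree m → f m = 0) (u : ℕ) :
    -1 ≤ ∑ k ∈ Icc 1 u, f k / k := by
  rcases Nat.eq_zero_or_pos u with hu | hu
  · subst hu
    simp
  have hu0 : (0 : ℝ) < u := by exact_mod_cast hu
  have h1 : 0 ≤ ∑ n ∈ Icc 1 u, ∑ d ∈ n.divisors, f d :=
    Finset.sum_nonneg fun n hn => conv_nonneg hf hs (Finset.mem_Icc.1 hn).1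
  have h2 : ∑ n ∈ Icc 1 u, ∑ d ∈ n.divisors, f d = ∑ d ∈ Icc 1 u, f d * ((u / d : ℕ) : ℝ) := by
    have h3 : ∀ n ∈ Icc 1 u, ∑ d ∈ n.divisors, f d = ∑ d ∈ Icc 1 u, if d ∣ n then f d else 0 := by
      intro n hn
      rw [Finset.mem_Icc] at hn
      rw [← Finset.sum_filter]
      refine Finset.sum_congr ?_ fun _ _ => rfl
      ext d
      rw [Nat.mem_divisors, Finset.mem_filter, Finset.mem_Icc]
      constructor
      · rintro ⟨h4, _⟩
        exact ⟨⟨Nat.pos_of_dvd_of_pos h4 hn.1, (Nat.le_of_dvd hn.1 h4).trans hn.2⟩, h4⟩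
      · rintro ⟨_, h4⟩
        exact ⟨h4, by omega⟩
    rw [Finset.sum_congr rfl h3, Finset.sum_comm]
    refine Finset.sum_congr rfl fun d _ => ?_
    rw [← Finset.sum_filter, Finset.sum_const, nsmul_eq_mul, mul_comm]
    congr 2
    have h5 := Nat.Ioc_filter_dvd_card_eq_div u d
    rw [← h5]
    congr 1
  have h3 : ∑ d ∈ Icc 1 u, f d * ((u / d : ℕ) : ℝ) ≤ ∑ d ∈ Icc 1 u, (u * (f d / d) + 1) := by
    refine Finset.sum_le_sum fun d hd => ?_
    rw [Finset.mem_Icc] at hd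
    have hd0 : (0 : ℝ) < d := by exact_mod_cast hd.1
    have h4 : ((u / d : ℕ) : ℝ) ≤ (u : ℝ) / d := Nat.cast_div_le
    have h5 : u < (u / d + 1) * d := by
      rw [mul_comm]
      exact Nat.lt_mul_div_succ u hd.1
    have h6 : (u : ℝ) < (((u / d : ℕ) : ℝ) + 1) * d := by exact_mod_cast h5
    rw [← div_lt_iff₀ hd0] at h6
    have h7 := abs_le.1 (hf.le d)
    have h8 : u * (f d / d) = f d * (u / d) := by ring
    rw [h8]
    nlinarith [mul_nonneg (by linarith [h7.1] : 0 ≤ f d + 1)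
      (by linarith : 0 ≤ (u : ℝ) / d - ((u / d : ℕ) : ℝ))]
  rw [Finset.sum_add_distrib, ← Finset.mul_sum, Finset.sum_const, Nat.card_Icc, Nat.add_sub_cancel,
    nsmul_eq_mul, mul_one] at h3
  have h4 : 0 ≤ u * (∑ k ∈ Icc 1 u, f k / k + 1) := by
    rw [h2] at h1
    linarith
  have h5 := (mul_nonneg_iff_of_pos_left hu0).1 h4
  linarith

end Pool.Agent.H.MP_656320_nt.NS
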