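import Pool.Agent.H.MP_656320_nt.NS.Df

/-!
# NS/C: the sums over the primes of `P`

`swp`: interchange of summation (as `LS.swap` in LS/AvB). `psum`: apply it, `tP P (u / k) = δ * (u / k) + O(ε * u / k + C)` with the natural
number `u / k` replaced by the real quotient (error at most one), and `∑ k ≤ u, 1 / k ≤ 1 + log u` (`harmonic_le_one_add_log`).
`plow`: `u * ∑ p, log p / p ≥ ∑ p, log p * (u / p : ℕ)` and `psum` with `f = 1` (then `G f (u / p) = u / p`),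
`∑ k ≤ u, 1 / k ≥ log (u + 1) ≥ log u` (`log_add_one_le_harmonic`).
-/

namespace Pool.Agent.H.MP_656320_nt.NS

open Finset Filter Topology Pool.Agent.H.MP_656320_nt Pool.Agent.H.MP_656320_nt.LS

theorem swp (P : Set ℕ) (f : ℕ → ℝ) (u : ℕ) :
    ∑ p ∈ pr P u, Real.log p * G f (u / p) = ∑ k ∈ Icc 1 u, f k * tP P (u / k) := by
  classical
  unfold tP G
  simp only [mul_sum]
  rw [sum_comm' (t' := Icc 1 u) (s' := fun k => pr P (u / k))]
  · refine sum_congr rfl fun k _ => sum_congr rfl fun p _ => ?_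
    ring
  · intro p k
    simp only [pr, mem_filter, mem_Icc]
    constructor
    · rintro ⟨⟨⟨h1, h2⟩, h3⟩, h4, h5⟩
      have h6 : k * p ≤ u := (Nat.le_div_iff_mul_le (by omega)).1 h5
      refine ⟨⟨⟨h1, (Nat.le_div_iff_mul_le (by omega)).2 (by rw [mul_comm]; exact h6)⟩, h3⟩, h4, ?_⟩
      exact (Nat.le_mul_of_pos_right k (by omega)).trans h6
    · rintro ⟨⟨⟨h1, h2⟩, h3⟩, h4, h5⟩
      have h6 : p * k ≤ u := (Nat.le_div_iff_mul_le (by omega)).1 h2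
      refine ⟨⟨⟨h1, (Nat.le_mul_of_pos_right p (by omega)).trans h6⟩, h3⟩, h4, ?_⟩
      exact (Nat.le_div_iff_mul_le (by omega)).2 (by rw [mul_comm]; exact h6)

private theorem C_harm (u : ℕ) : ∑ k ∈ Icc 1 u, (k : ℝ)⁻¹ ≤ 1 + Real.log u := by
  have h3 := harmonic_le_one_add_log u
  rw [harmonic_eq_sum_Icc] at h3
  push_cast at h3
  exact h3

private theorem C_harm' (u : ℕ) (hu : 1 ≤ u) : Real.log u ≤ ∑ k ∈ Icc 1 u, (k : ℝ)⁻¹ := by
  have h3 := log_add_one_le_harmonic u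
  rw [harmonic_eq_sum_Icc] at h3
  push_cast at h3
  have hu' : (0 : ℝ) < u := by exact_mod_cast hu
  have h4 : Real.log (u : ℝ) ≤ Real.log ((u : ℝ) + 1) := Real.log_le_log hu' (by linarith)
  exact h4.trans h3

/-- the natural number quotient and the real quotient differ by at most one -/
private theorem C_div (u k : ℕ) (hk : 1 ≤ k) : |((u / k : ℕ) : ℝ) - u * (k : ℝ)⁻¹| ≤ 1 := by
  have h1 : ((u / k : ℕ) : ℝ) ≤ u * (k : ℝ)⁻¹ := by
    rw [← div_eq_mul_inv]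
    exact Nat.cast_div_le
  have hk' : (0 : ℝ) < k := by exact_mod_cast hk
  have h2 : (u : ℝ) * (k : ℝ)⁻¹ ≤ ((u / k : ℕ) : ℝ) + 1 := by
    rw [← div_eq_mul_inv, div_le_iff₀ hk']
    have h3 : u ≤ (u / k + 1) * k := by
      have h4 := Nat.lt_div_mul_add (a := u) (b := k) (by omega)
      nlinarith
    exact_mod_cast h3
  rw [abs_le]
  constructor <;> linarith

theorem psum {P : Set ℕ} {δ : ℝ} (hP : Den P δ) (ε : ℝ) (hε : 0 < ε) : ∃ C : ℝ, 0 ≤ C ∧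
    ∀ f : ℕ → ℝ, (∀ m, |f m| ≤ 1) → ∀ u : ℕ, 1 ≤ u →
      |∑ p ∈ pr P u, Real.log p * G f (u / p) - δ * u * ∑ k ∈ Icc 1 u, f k / k| ≤
        ε * u * Real.log u + C * u := by
  obtain ⟨C₀, hC₀⟩ := hP ε hε
  refine ⟨ε + (|C₀| + |δ|), by positivity, fun f hf u _ => ?_⟩
  rw [swp, mul_sum, ← sum_sub_distrib]
  have h1 : ∀ k ∈ Icc 1 u, |f k * tP P (u / k) - δ * u * (f k / k)| ≤
      ε * u * (k : ℝ)⁻¹ + (|C₀| + |δ|) := by
    intro k hk
    rw [mem_Icc] at hk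
    have e1 : f k * tP P (u / k) - δ * u * (f k / k) =
        f k * ((tP P (u / k) - δ * ((u / k : ℕ) : ℝ)) + δ * (((u / k : ℕ) : ℝ) - u * (k : ℝ)⁻¹)) := by
      rw [div_eq_mul_inv]
      ring
    rw [e1, abs_mul]
    have h2 := hC₀ (u / k)
    have h3 := C_div u k hk.1
    have h4 : ((u / k : ℕ) : ℝ) ≤ u * (k : ℝ)⁻¹ := by
      rw [← div_eq_mul_inv]
      exact Nat.cast_div_le
    have h5 : |(tP P (u / k) - δ * ((u / k : ℕ) : ℝ)) + δ * (((u / k : ℕ) : ℝ) - u * (k : ℝ)⁻¹)| ≤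
        ε * u * (k : ℝ)⁻¹ + (|C₀| + |δ|) := by
      refine (abs_add_le _ _).trans ?_
      rw [abs_mul]
      have h6 := mul_le_mul_of_nonneg_left h3 (abs_nonneg δ)
      have h7 := mul_le_mul_of_nonneg_left h4 hε.le
      have h8 := le_abs_self C₀
      linarith
    have h9 := mul_le_mul_of_nonneg_right (hf k) (abs_nonneg
      ((tP P (u / k) - δ * ((u / k : ℕ) : ℝ)) + δ * (((u / k : ℕ) : ℝ) - u * (k : ℝ)⁻¹)))
    rw [one_mul] at h9
    exact h9.trans h5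
  calc |∑ k ∈ Icc 1 u, (f k * tP P (u / k) - δ * u * (f k / k))|
      ≤ ∑ k ∈ Icc 1 u, |f k * tP P (u / k) - δ * u * (f k / k)| := abs_sum_le_sum_abs _ _
    _ ≤ ∑ k ∈ Icc 1 u, (ε * u * (k : ℝ)⁻¹ + (|C₀| + |δ|)) := sum_le_sum h1
    _ = ε * u * ∑ k ∈ Icc 1 u, (k : ℝ)⁻¹ + (|C₀| + |δ|) * u := by
        rw [sum_add_distrib, ← mul_sum, sum_const, Nat.card_Icc, nsmul_eq_mul, add_tsub_cancel_right,
          mul_comm (|C₀| + |δ|)]
    _ ≤ ε * u * (1 + Real.log u) + (|C₀| + |δ|) * u := by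
        have h2 := mul_le_mul_of_nonneg_left (C_harm u) (show 0 ≤ ε * (u : ℝ) by positivity)
        linarith
    _ = ε * u * Real.log u + (ε + (|C₀| + |δ|)) * u := by ring

theorem plow {P : Set ℕ} {δ : ℝ} (hP : Den P δ) (ε : ℝ) (hε : 0 < ε) : ∃ C : ℝ, 0 ≤ C ∧
    ∀ u : ℕ, 1 ≤ u → (δ - ε) * Real.log u - C ≤ ∑ p ∈ pr P u, Real.log p / p := by
  obtain ⟨C, hC, h⟩ := psum hP ε hε
  refine ⟨C + |δ|, by positivity, fun u hu => ?_⟩
  have h1 := h (fun _ => 1) (fun _ => by simp) u hu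
  have hu' : (0 : ℝ) < u := by exact_mod_cast hu
  have e1 : ∀ k ∈ Icc 1 u, (1 : ℝ) / k = (k : ℝ)⁻¹ := fun k _ => one_div _
  rw [sum_congr rfl e1] at h1
  have h2 : ∑ p ∈ pr P u, Real.log p * G (fun _ => 1) (u / p) ≤
      u * ∑ p ∈ pr P u, Real.log p / p := by
    rw [mul_sum]
    refine sum_le_sum fun p _ => ?_
    have e2 : G (fun _ => 1) (u / p) = ((u / p : ℕ) : ℝ) := by
      unfold G
      rw [sum_const, Nat.card_Icc, nsmul_eq_mul, add_tsub_cancel_right, mul_one]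
    have h3 : ((u / p : ℕ) : ℝ) ≤ u * (p : ℝ)⁻¹ := by
      rw [← div_eq_mul_inv]
      exact Nat.cast_div_le
    have h4 := mul_le_mul_of_nonneg_left h3 (Real.log_natCast_nonneg p)
    rw [e2]
    calc Real.log p * ((u / p : ℕ) : ℝ) ≤ Real.log p * (u * (p : ℝ)⁻¹) := h4
      _ = u * (Real.log p / p) := by rw [div_eq_mul_inv]; ring
  have h3 := C_harm u
  have h4 := C_harm' u hu
  have h5 : δ * Real.log u - |δ| ≤ δ * ∑ k ∈ Icc 1 u, (k : ℝ)⁻¹ := by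
    have h6 : |Real.log u - ∑ k ∈ Icc 1 u, (k : ℝ)⁻¹| ≤ 1 := by
      rw [abs_le]
      constructor <;> linarith
    have h7 := mul_le_mul_of_nonneg_left h6 (abs_nonneg δ)
    rw [← abs_mul, mul_one] at h7
    have h8 := (le_abs_self _).trans h7
    linarith
  have h6 := (abs_le.1 h1).1
  have h7 := mul_le_mul_of_nonneg_left h5 hu'.le
  refine le_of_mul_le_mul_left ?_ hu'
  refine le_trans ?_ h2
  linarith

end Pool.Agent.H.MP_656320_nt.NS
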