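import Pool.Agent.H.MP_656320_nt.LS.FmA

/-!
# NS/Df: definitions

Mean values of multiplicative functions which are `-1` at the primes of a set of positive density.
-/

namespace Pool.Agent.H.MP_656320_nt.NS

open Finset Filter Topology Pool.Agent.H.MP_656320_nt Pool.Agent.H.MP_656320_nt.LS

open Classical in
/-- The primes up to `u` in `P`. -/
noncomputable def pr (P : Set ℕ) (u : ℕ) : Finset ℕ := (Icc 1 u).filter (fun p => p.Prime ∧ p ∈ P)

/-- The sum of `log p` over the primes `p ≤ u` in `P`. -/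
noncomputable def tP (P : Set ℕ) (u : ℕ) : ℝ := ∑ p ∈ pr P u, Real.log p

/-- The primes in `P` have density `δ`: the sum of `log p` over the `p ≤ u` in `P` is `δ u + o(u)`. -/
def Den (P : Set ℕ) (δ : ℝ) : Prop := ∀ ε > 0, ∃ C : ℝ, ∀ u : ℕ, |tP P u - δ * u| ≤ ε * u + C

/-- The sum of `f` over the `m ≤ u`. -/
noncomputable def G (f : ℕ → ℝ) (u : ℕ) : ℝ := ∑ m ∈ Icc 1 u, f m

/-- The multiplicative functions with values of absolute value at most one which vanish off the squarefree
numbers and are `-1` at the primes in `P`. -/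
def Sq (P : Set ℕ) : Set (ℕ → ℝ) :=
  {f | Mu f ∧ (∀ m, ¬ Squarefree m → f m = 0) ∧ ∀ p ∈ P, p.Prime → f p = -1}

/-- The sums of the functions in `F` are at most `s u + O(1)`, uniformly in `F`. -/
def Bd (F : Set (ℕ → ℝ)) (s : ℝ) : Prop := ∃ C : ℝ, ∀ f ∈ F, ∀ u : ℕ, |G f u| ≤ s * u + C

/-- the sum over the primes up to `u` is the sum over those in `P` plus the sum over the others -/
theorem split (P : Set ℕ) (g : ℕ → ℝ) (u : ℕ) :
    ∑ p ∈ (Icc 1 u).filter Nat.Prime, g p = ∑ p ∈ pr P u, g p + ∑ p ∈ pr Pᶜ u, g p := by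
  classical
  rw [← Finset.sum_filter_add_sum_filter_not ((Icc 1 u).filter Nat.Prime) (· ∈ P)]
  congr 1
  · refine Finset.sum_congr ?_ fun _ _ => rfl
    ext p
    simp only [pr, Finset.mem_filter, and_assoc]
  · refine Finset.sum_congr ?_ fun _ _ => rfl
    ext p
    simp only [pr, Finset.mem_filter, and_assoc, Set.mem_compl_iff]

end Pool.Agent.H.MP_656320_nt.NS
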