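import Pool.Agent.H.MP_656320_nt.NS.Df
import Pool.Agent.H.MP_656320_nt.LS.AvA
import Pool.Agent.H.MP_656320_nt.LS.AvC

/-!
# NS/K: the identity with logarithms, and a lemma of division by `log u`

`core`: as in LS/Av (`Av_log`): `G f u * log u = ∑ m, f m log m + ∑ m, f m (log u - log m)`, `LS.logsum` and `LS.logdef`.
`finl`: for `K / ε' ≤ log u` divide by `log u`; for the other `u` use `X u ≤ u`. Note that `c + ε'` may be negative.
-/

namespace Pool.Agent.H.MP_656320_nt.NS

open Finset Filter Topology Pool.Agent.H.MP_656320_nt Pool.Agent.H.MP_656320_nt.LS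

theorem core : ∃ C : ℝ, 0 ≤ C ∧ ∀ f : ℕ → ℝ, Mu f → ∀ u : ℕ, 1 ≤ u →
    |G f u * Real.log u - ∑ p ∈ (Icc 1 u).filter Nat.Prime, f p * Real.log p * G f (u / p)| ≤ C * u := by
  obtain ⟨C, hC0, hC⟩ := logsum
  refine ⟨C + 4, by positivity, fun f hf u _ => ?_⟩
  have h1 : G f u * Real.log u - ∑ p ∈ (Icc 1 u).filter Nat.Prime, f p * Real.log p * G f (u / p) =
      (∑ m ∈ Icc 1 u, f m * Real.log m -
        ∑ p ∈ (Icc 1 u).filter Nat.Prime, f p * Real.log p * ∑ k ∈ Icc 1 (u / p), f k) +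
      ∑ m ∈ Icc 1 u, f m * (Real.log u - Real.log m) := by
    have h2 : ∑ m ∈ Icc 1 u, f m * (Real.log u - Real.log m) =
        G f u * Real.log u - ∑ m ∈ Icc 1 u, f m * Real.log m := by
      unfold G
      rw [Finset.sum_mul, ← Finset.sum_sub_distrib]
      exact Finset.sum_congr rfl fun m _ => by ring
    rw [h2]
    unfold G
    ring
  have h3 : |∑ m ∈ Icc 1 u, f m * (Real.log u - Real.log m)| ≤ 4 * u := by
    refine (Finset.abs_sum_le_sum_abs _ _).trans (le_trans (Finset.sum_le_sum fun m hm => ?_)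
      (logdef u))
    rw [Finset.mem_Icc] at hm
    have hm0 : (0 : ℝ) < m := by exact_mod_cast hm.1
    have h4 : 0 ≤ Real.log u - Real.log m :=
      sub_nonneg.2 (Real.log_le_log hm0 (by exact_mod_cast hm.2))
    rw [abs_mul, abs_of_nonneg h4]
    exact (mul_le_mul_of_nonneg_right (hf.le m) h4).trans (le_of_eq (one_mul _))
  rw [h1]
  refine (abs_add_le _ _).trans ?_
  have h5 := hC f hf u
  linarith

theorem G_le {f : ℕ → ℝ} (hf : Mu f) (u : ℕ) : |G f u| ≤ u := by
  unfold G
  refine (Finset.abs_sum_le_sum_abs _ _).trans ?_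
  refine (Finset.sum_le_sum fun m _ => hf.le m).trans ?_
  rw [Finset.sum_const, Nat.card_Icc, Nat.add_sub_cancel, nsmul_eq_mul, mul_one]

theorem finl (c K ε : ℝ) (hε : 0 < ε) : ∃ C : ℝ, 0 ≤ C ∧ ∀ X : ℕ → ℝ, (∀ u : ℕ, X u ≤ u) →
    (∀ u : ℕ, 1 ≤ u → X u * Real.log u ≤ c * u * Real.log u + K * u) →
      ∀ u : ℕ, X u ≤ (c + ε) * u + C := by
  refine ⟨(1 + |c + ε|) * Real.exp (max (K / ε) 1), by positivity, fun X h1 h2 u => ?_⟩
  have hu0 : (0 : ℝ) ≤ u := Nat.cast_nonneg u
  rcases le_or_gt (max (K / ε) 1) (Real.log u) with h | h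
  · have hlog : 0 < Real.log u := lt_of_lt_of_le zero_lt_one ((le_max_right _ _).trans h)
    have hu : 1 ≤ u := by
      rcases Nat.eq_zero_or_pos u with h3 | h3
      · rw [h3, Nat.cast_zero, Real.log_zero] at hlog
        exact absurd hlog (lt_irrefl _)
      · exact h3
    have hK : K ≤ ε * Real.log u := by
      have h3 := (le_max_left (K / ε) 1).trans h
      rw [div_le_iff₀ hε] at h3
      linarith
    have h4 : K * u ≤ ε * Real.log u * u := mul_le_mul_of_nonneg_right hK hu0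
    have h5 : X u * Real.log u ≤ ((c + ε) * u) * Real.log u := by
      have h6 := h2 u hu
      linarith
    have h7 : X u ≤ (c + ε) * u := le_of_mul_le_mul_right h5 hlog
    have h8 : 0 ≤ (1 + |c + ε|) * Real.exp (max (K / ε) 1) := by positivity
    linarith
  · have hexp : (u : ℝ) ≤ Real.exp (max (K / ε) 1) := by
      rcases Nat.eq_zero_or_pos u with h3 | h3
      · rw [h3, Nat.cast_zero]
        exact (Real.exp_pos _).le
      · have h4 : (0 : ℝ) < u := by exact_mod_cast h3
        rw [← Real.log_le_iff_le_exp h4]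
        exact h.le
    have h5 : -(c + ε) * u ≤ |c + ε| * u := mul_le_mul_of_nonneg_right (neg_le_abs _) hu0
    have h6 : (1 + |c + ε|) * u ≤ (1 + |c + ε|) * Real.exp (max (K / ε) 1) :=
      mul_le_mul_of_nonneg_left hexp (by positivity)
    have h7 := h1 u
    linarith

end Pool.Agent.H.MP_656320_nt.NS
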