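import Pool.Agent.H.MP_656320_nt.NS.A
import Pool.Agent.H.MP_656320_nt.NS.B
import Pool.Agent.H.MP_656320_nt.NS.C
import Pool.Agent.H.MP_656320_nt.NS.K

/-!
# NS/E: the upper bound for the sums gains a factor `1 - δ`

Let `f` be in `Sq P`, `1 ≤ u`, `A = pr P u`, `B = pr Pᶜ u` (the other primes up to `u`; `split` in Df). By `core`
`G f u * log u ≤ C1 u + ∑ p ∈ A, (-1) * log p * G f (u / p) + ∑ p ∈ B, f p * log p * G f (u / p)`.
First sum: `≤ - δ u ∑ k, f k / k + ε1 u log u + C u ≤ δ u + ε1 u log u + C u` by `psum` and `low`.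
Second sum: `|f p * log p * G f (u / p)| ≤ log p * (s * (u / p) + |C'|)` with the real quotient (`0 ≤ s`), so it is at most
`s u ∑ p ∈ B, log p / p + |C'| ∑ p, log p`, `∑ p ∈ B, log p / p = ∑ all - ∑ A ≤ log u + C2 - ((δ - ε1) log u - C3)` (`mert`, `plow`),
`∑ p, log p ≤ 2 u` (`cheb`). Total: `G f u log u ≤ ((1 - δ) s + ε1 (s + 1)) u log u + K u`; take `ε1 = ε / (2 (s + 1))` and apply `finl`
(with `c = (1 - δ) s + ε / 2` and `ε / 2`).
-/

namespace Pool.Agent.H.MP_656320_nt.NS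

open Finset Filter Topology Pool.Agent.H.MP_656320_nt Pool.Agent.H.MP_656320_nt.LS

theorem up {P : Set ℕ} {δ s : ℝ} (hδ : 0 ≤ δ) (hP : Den P δ) (hs : 0 ≤ s) (h : Bd (Sq P) s) (ε : ℝ) (hε : 0 < ε) :
    ∃ C : ℝ, ∀ f ∈ Sq P, ∀ u : ℕ, G f u ≤ ((1 - δ) * s + ε) * u + C := by
  obtain ⟨C', hC'⟩ := h
  have hs1 : 0 < s + 1 := by linarith
  obtain ⟨ε1, hε1p, hee⟩ : ∃ ε1 : ℝ, 0 < ε1 ∧ ε1 * (1 + s) = ε / 2 :=
    ⟨ε / 2 / (1 + s), by positivity, div_mul_cancel₀ _ (by linarith)⟩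
  obtain ⟨C1, hC1, h1⟩ := core
  obtain ⟨C2, hC2, h2⟩ := mert
  obtain ⟨C3, hC3, h3⟩ := psum hP ε1 hε1p
  obtain ⟨C4, hC4, h4⟩ := plow hP ε1 hε1p
  obtain ⟨C, -, hC⟩ := finl ((1 - δ) * s + ε / 2) (C1 + δ + C3 + s * (C2 + C4) + 2 * |C'|)
    (ε / 2) (by positivity)
  refine ⟨C, fun f hf u => ?_⟩
  have hfin := hC (G f) (fun v => (le_abs_self _).trans (G_le hf.1 v)) (fun v hv => ?_) u
  · have e : (1 - δ) * s + ε / 2 + ε / 2 = (1 - δ) * s + ε := by ring
    rwa [e] at hfin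
  have hv0 : (0 : ℝ) ≤ v := Nat.cast_nonneg v
  have hlog : 0 ≤ Real.log v := Real.log_natCast_nonneg v
  have k1 := (abs_le.1 (h1 f hf.1 v hv)).2
  have k0 : ∑ p ∈ (Icc 1 v).filter Nat.Prime, f p * Real.log p * G f (v / p) =
      ∑ p ∈ pr P v, f p * Real.log p * G f (v / p) +
        ∑ p ∈ pr Pᶜ v, f p * Real.log p * G f (v / p) :=
    split P (fun p => f p * Real.log p * G f (v / p)) v
  rw [k0] at k1
  have k2 : ∑ p ∈ pr P v, f p * Real.log p * G f (v / p) =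
      - ∑ p ∈ pr P v, Real.log p * G f (v / p) := by
    rw [← Finset.sum_neg_distrib]
    refine Finset.sum_congr rfl fun p hp => ?_
    classical
    rw [pr, Finset.mem_filter] at hp
    have hp' := hp.2
    rw [hf.2.2 p hp'.2 hp'.1]
    ring
  have k3 := (abs_le.1 (h3 f hf.1.le v hv)).1
  have k4 := low hf.1 hf.2.1 v
  have k5 : δ * v * (-1) ≤ δ * v * ∑ k ∈ Icc 1 v, f k / k :=
    mul_le_mul_of_nonneg_left k4 (by positivity)
  have k6 : ∑ p ∈ pr Pᶜ v, f p * Real.log p * G f (v / p) ≤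
      s * v * ∑ p ∈ pr Pᶜ v, Real.log p / p + |C'| * ∑ p ∈ pr Pᶜ v, Real.log p := by
    rw [Finset.mul_sum, Finset.mul_sum, ← Finset.sum_add_distrib]
    refine Finset.sum_le_sum fun p hp => ?_
    have hl : 0 ≤ Real.log p := Real.log_natCast_nonneg p
    have g1 : |G f (v / p)| ≤ s * (v / p) + |C'| := by
      have g2 := hC' f hf (v / p)
      have g3 : ((v / p : ℕ) : ℝ) ≤ (v : ℝ) / p := Nat.cast_div_le
      have g4 : s * ((v / p : ℕ) : ℝ) ≤ s * ((v : ℝ) / p) := mul_le_mul_of_nonneg_left g3 hs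
      have g5 := le_abs_self C'
      linarith
    have g6 : f p * Real.log p * G f (v / p) ≤ Real.log p * (s * (v / p) + |C'|) := by
      calc f p * Real.log p * G f (v / p) ≤ |f p * Real.log p * G f (v / p)| := le_abs_self _
        _ = |f p| * (Real.log p * |G f (v / p)|) := by
            rw [abs_mul, abs_mul, abs_of_nonneg hl, mul_assoc]
        _ ≤ 1 * (Real.log p * |G f (v / p)|) :=
            mul_le_mul_of_nonneg_right (hf.1.le p) (by positivity)
        _ ≤ Real.log p * (s * (v / p) + |C'|) := by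
            rw [one_mul]
            exact mul_le_mul_of_nonneg_left g1 hl
    refine g6.trans (le_of_eq ?_)
    ring
  have k7 : ∑ p ∈ (Icc 1 v).filter Nat.Prime, Real.log p / p =
      ∑ p ∈ pr P v, Real.log p / p + ∑ p ∈ pr Pᶜ v, Real.log p / p :=
    split P (fun p => Real.log p / p) v
  have k8 : ∑ p ∈ (Icc 1 v).filter Nat.Prime, Real.log p =
      ∑ p ∈ pr P v, Real.log p + ∑ p ∈ pr Pᶜ v, Real.log p :=
    split P (fun p => Real.log p) v
  have k9 := cheb v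
  have k10 := h2 v hv
  have k11 := h4 v hv
  have k12 : 0 ≤ ∑ p ∈ pr P v, Real.log p :=
    Finset.sum_nonneg fun p _ => Real.log_natCast_nonneg p
  have k13 : ∑ p ∈ pr Pᶜ v, Real.log p / p ≤
      Real.log v + C2 - ((δ - ε1) * Real.log v - C4) := by linarith
  have k14 : s * v * ∑ p ∈ pr Pᶜ v, Real.log p / p ≤
      s * v * (Real.log v + C2 - ((δ - ε1) * Real.log v - C4)) :=
    mul_le_mul_of_nonneg_left k13 (by positivity)
  have k15 : |C'| * ∑ p ∈ pr Pᶜ v, Real.log p ≤ |C'| * (2 * v) :=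
    mul_le_mul_of_nonneg_left (by linarith) (abs_nonneg _)
  rw [← hee]
  have e1 : ((1 - δ) * s + ε1 * (1 + s)) * v * Real.log v +
      (C1 + δ + C3 + s * (C2 + C4) + 2 * |C'|) * v =
      C1 * v + (δ * v + (ε1 * v * Real.log v + C3 * v)) +
        (s * v * (Real.log v + C2 - ((δ - ε1) * Real.log v - C4)) + |C'| * (2 * v)) := by ring
  rw [e1]
  linarith

end Pool.Agent.H.MP_656320_nt.NS
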