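import Pool.Agent.H.MP_656320_nt.NS.A
import Pool.Agent.H.MP_656320_nt.NS.C
import Pool.Agent.H.MP_656320_nt.NS.K

/-!
# NS/F: the lower bound for the sums gains from the upper bound

Let `f` be in `Sq P`, `1 ≤ u`, `A = pr P u`, `B = pr Pᶜ u` (the other primes up to `u`). By `core` and `f p = - 1` on `A`
`- G f u * log u ≤ C1 u + ∑ p ∈ A, log p * G f (u / p) + ∑ p ∈ B, (- f p) * log p * G f (u / p)`.
On `A`: `G f (u / p) ≤ s1 * (u / p) + |C'|` (real quotient, `0 ≤ s1`); on `B`: `- f p * G f (u / p) ≤ |G f (u / p)| ≤ s * (u / p) + |C'|`.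
Total `≤ C1 u + u * (s ∑ all, log p / p - (s - s1) ∑ A, log p / p) + (|C'| + |C''|) ∑ all, log p`, with `mert`, `plow` (as `s1 ≤ s`) and `cheb`:
`≤ (s - δ (s - s1) + ε1 (s - s1)) u log u + K u`; take `ε1 = ε / (2 (s + 1))` and apply `finl` to `X = - G f`.
-/

namespace Pool.Agent.H.MP_656320_nt.NS

open Finset Filter Topology Pool.Agent.H.MP_656320_nt Pool.Agent.H.MP_656320_nt.LS

private theorem F_mem {P : Set ℕ} {u p : ℕ} (hp : p ∈ pr P u) : p.Prime ∧ p ∈ P := by
  simp only [pr, Finset.mem_filter] at hp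
  exact hp.2

private theorem F_part (S : Finset ℕ) (hS : ∀ p ∈ S, p.Prime) {t c D : ℝ} (u : ℕ) (g X : ℕ → ℝ)
    (ht : 0 ≤ t) (hcD : |c| ≤ D) (hg : ∀ p ∈ S, g p ≤ Real.log p * X p)
    (hX : ∀ p ∈ S, X p ≤ t * ((u / p : ℕ) : ℝ) + c) :
    ∑ p ∈ S, g p ≤ t * u * ∑ p ∈ S, Real.log p / p + D * ∑ p ∈ S, Real.log p := by
  rw [Finset.mul_sum, Finset.mul_sum, ← Finset.sum_add_distrib]
  refine Finset.sum_le_sum fun p hp => ?_
  have h0 : 0 ≤ Real.log p := Real.log_natCast_nonneg p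
  have hp0 : (0 : ℝ) < p := by exact_mod_cast (hS p hp).pos
  have h1 : ((u / p : ℕ) : ℝ) ≤ (u : ℝ) / p := Nat.cast_div_le
  have h2 : X p ≤ t * ((u : ℝ) / p) + D := by
    have h3 := mul_le_mul_of_nonneg_left h1 ht
    have h4 := hX p hp
    have h5 := le_abs_self c
    linarith
  calc g p ≤ Real.log p * X p := hg p hp
    _ ≤ Real.log p * (t * ((u : ℝ) / p) + D) := mul_le_mul_of_nonneg_left h2 h0
    _ = t * u * (Real.log p / p) + D * Real.log p := by
      field_simp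

theorem down {P : Set ℕ} {δ s s1 : ℝ} (hP : Den P δ) (hs1 : 0 ≤ s1) (hs : s1 ≤ s) (h : Bd (Sq P) s)
    (h1 : ∃ C : ℝ, ∀ f ∈ Sq P, ∀ u : ℕ, G f u ≤ s1 * u + C) (ε : ℝ) (hε : 0 < ε) :
    ∃ C : ℝ, ∀ f ∈ Sq P, ∀ u : ℕ, - G f u ≤ (s - δ * (s - s1) + ε) * u + C := by
  have hs0 : 0 ≤ s := hs1.trans hs
  have hss : 0 ≤ s - s1 := by linarith
  set ε1 : ℝ := ε / (2 * (s + 1)) with hε1
  have hpos1 : 0 < ε1 := by positivity
  obtain ⟨C1, hC1, hcore⟩ := core
  obtain ⟨C2, hC2, hmert⟩ := mert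
  obtain ⟨C3, hC3, hplow⟩ := plow hP ε1 hpos1
  obtain ⟨Ca, hCa⟩ := h
  obtain ⟨Cb, hCb⟩ := h1
  set D : ℝ := |Ca| + |Cb| with hD
  have hDa : |Ca| ≤ D := by
    have := abs_nonneg Cb
    linarith
  have hDb : |Cb| ≤ D := by
    have := abs_nonneg Ca
    linarith
  have hD0 : 0 ≤ D := (abs_nonneg Ca).trans hDa
  obtain ⟨C, hC, hfin⟩ := finl (s - δ * (s - s1) + ε1 * (s - s1))
    (C1 + s * C2 + (s - s1) * C3 + 2 * D) (ε / 2) (by positivity)
  refine ⟨C, fun f hf u => ?_⟩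
  obtain ⟨hMu, -, hfP⟩ := id hf
  have hmain : ∀ u : ℕ, 1 ≤ u → - G f u * Real.log u ≤
      (s - δ * (s - s1) + ε1 * (s - s1)) * u * Real.log u +
        (C1 + s * C2 + (s - s1) * C3 + 2 * D) * u := by
    intro u hu
    have hc := hcore f hMu u hu
    have hu0 : (0 : ℝ) ≤ u := Nat.cast_nonneg u
    have hsp := split P (fun p => - (f p * Real.log p * G f (u / p))) u
    have hA : ∑ p ∈ pr P u, - (f p * Real.log p * G f (u / p)) ≤
        s1 * u * ∑ p ∈ pr P u, Real.log p / p + D * ∑ p ∈ pr P u, Real.log p := by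
      refine F_part (pr P u) (fun p hp => (F_mem hp).1) u _
        (fun p => G f (u / p)) hs1 hDb (fun p hp => ?_) (fun p hp => hCb f hf (u / p))
      have h2 := hfP p (F_mem hp).2 (F_mem hp).1
      rw [h2]
      apply le_of_eq
      ring
    have hB : ∑ p ∈ pr Pᶜ u, - (f p * Real.log p * G f (u / p)) ≤
        s * u * ∑ p ∈ pr Pᶜ u, Real.log p / p + D * ∑ p ∈ pr Pᶜ u, Real.log p := by
      refine F_part (pr Pᶜ u) (fun p hp => (F_mem hp).1) u _
        (fun p => |G f (u / p)|) hs0 hDa (fun p hp => ?_) (fun p hp => hCa f hf (u / p))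
      have h0 : 0 ≤ Real.log p := Real.log_natCast_nonneg p
      have h3 : - (f p * G f (u / p)) ≤ |G f (u / p)| := by
        have h4 : |f p * G f (u / p)| ≤ |G f (u / p)| := by
          rw [abs_mul]
          exact mul_le_of_le_one_left (abs_nonneg _) (hMu.le p)
        have h5 := neg_abs_le (f p * G f (u / p))
        linarith
      calc - (f p * Real.log p * G f (u / p)) = Real.log p * - (f p * G f (u / p)) := by ring
        _ ≤ Real.log p * |G f (u / p)| := mul_le_mul_of_nonneg_left h3 h0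
    have hM := split P (fun p => Real.log p / p) u
    have hT := split P (fun p => Real.log p) u
    have hm := hmert u hu
    have hch := cheb u
    have hpl := hplow u hu
    have hneg : ∑ p ∈ (Icc 1 u).filter Nat.Prime, - (f p * Real.log p * G f (u / p)) =
        - ∑ p ∈ (Icc 1 u).filter Nat.Prime, f p * Real.log p * G f (u / p) :=
      Finset.sum_neg_distrib _
    beta_reduce at hsp hM hT
    rw [hneg] at hsp
    set a := ∑ p ∈ pr P u, Real.log p / p
    set b := ∑ p ∈ pr Pᶜ u, Real.log p / p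
    set ta := ∑ p ∈ pr P u, Real.log (p : ℝ)
    set tb := ∑ p ∈ pr Pᶜ u, Real.log (p : ℝ)
    set L := Real.log u
    have e2 : s * u * (a + b) ≤ s * u * (L + C2) := by
      apply mul_le_mul_of_nonneg_left _ (by positivity)
      rw [← hM]
      exact hm
    have e3 : (s - s1) * u * ((δ - ε1) * L - C3) ≤ (s - s1) * u * a :=
      mul_le_mul_of_nonneg_left hpl (by positivity)
    have e4 : D * (ta + tb) ≤ D * (2 * u) := by
      apply mul_le_mul_of_nonneg_left _ hD0
      rw [← hT]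
      exact hch
    have e5 := (abs_le.1 hc).1
    nlinarith [e2, e3, e4, e5, hA, hB, hsp]
  have h6 := hfin (fun v => - G f v) (fun v => ?_) hmain u
  · beta_reduce at h6
    have h7 : ε1 * (s - s1) ≤ ε / 2 := by
      have h8 : ε1 * (s + 1) = ε / 2 := by
        rw [hε1]
        field_simp
      have h9 : ε1 * (s - s1) ≤ ε1 * (s + 1) := mul_le_mul_of_nonneg_left (by linarith) hpos1.le
      linarith
    have hu0 : (0 : ℝ) ≤ u := Nat.cast_nonneg u
    have h10 : (s - δ * (s - s1) + ε1 * (s - s1) + ε / 2) * u ≤ (s - δ * (s - s1) + ε) * u :=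
      mul_le_mul_of_nonneg_right (by linarith) hu0
    linarith
  · have h7 := (abs_le.1 (G_le hMu v)).1
    linarith

end Pool.Agent.H.MP_656320_nt.NS
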