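import Pool.Agent.H.MP_656320_nt.NS.Df

/-!
# NS/HB: few integers have a large square divisor

At most `∑ d > Y, u / d ^ 2` of the `m ≤ u` are divisible by some `d ^ 2`, `d > Y` (`d ≤ u`; the number of multiples of `d ^ 2` up to `u` is
`u / d ^ 2`), and `∑ Y < d ≤ K, 1 / d ^ 2 ≤ 1 / Y - 1 / K` (telescoping, induction on `K`, as `Lb_tel` in LS/Lb).
-/

namespace Pool.Agent.H.MP_656320_nt.NS

open Finset

open Classical in
theorem big_count {Y : ℕ} (hY : 1 ≤ Y) (u : ℕ) :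
    (((Icc 1 u).filter (fun m => ∃ d : ℕ, Y < d ∧ d ^ 2 ∣ m)).card : ℝ) ≤ (u : ℝ) / Y := by
  have h1 : (Icc 1 u).filter (fun m => ∃ d : ℕ, Y < d ∧ d ^ 2 ∣ m) ⊆
      (Ioc Y u).biUnion (fun d => (Ioc 0 u).filter (fun m => d ^ 2 ∣ m)) := by
    intro m hm
    rw [Finset.mem_filter, Finset.mem_Icc] at hm
    obtain ⟨⟨hm1, hm2⟩, d, hd1, hd2⟩ := hm
    rw [Finset.mem_biUnion]
    have h3 : d ^ 2 ≤ m := Nat.le_of_dvd (by omega) hd2
    have h4 : d ≤ d ^ 2 := Nat.le_self_pow (by norm_num) d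
    exact ⟨d, Finset.mem_Ioc.2 ⟨hd1, by omega⟩, Finset.mem_filter.2
      ⟨Finset.mem_Ioc.2 ⟨by omega, hm2⟩, hd2⟩⟩
  have h2 : (((Icc 1 u).filter (fun m => ∃ d : ℕ, Y < d ∧ d ^ 2 ∣ m)).card : ℝ) ≤
      ∑ d ∈ Ioc Y u, (u : ℝ) * ((d : ℝ) ^ 2)⁻¹ := by
    have h3 := (Finset.card_le_card h1).trans Finset.card_biUnion_le
    have h4 : (((Icc 1 u).filter (fun m => ∃ d : ℕ, Y < d ∧ d ^ 2 ∣ m)).card : ℝ) ≤
        ((∑ d ∈ Ioc Y u, ((Ioc 0 u).filter (fun m => d ^ 2 ∣ m)).card : ℕ) : ℝ) := by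
      exact_mod_cast h3
    refine h4.trans ?_
    rw [Nat.cast_sum]
    refine Finset.sum_le_sum (fun d _ => ?_)
    rw [Nat.Ioc_filter_dvd_card_eq_div]
    refine Nat.cast_div_le.trans (le_of_eq ?_)
    push_cast
    rw [div_eq_mul_inv]
  refine h2.trans ?_
  rw [← Finset.mul_sum, div_eq_mul_inv]
  refine mul_le_mul_of_nonneg_left ?_ (Nat.cast_nonneg u)
  rcases Nat.lt_or_ge u Y with h | h
  · rw [Finset.Ioc_eq_empty (by omega), Finset.sum_empty]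
    positivity
  · refine (sum_Ioc_inv_sq_le_sub (by omega) h).trans ?_
    have : (0 : ℝ) ≤ (u : ℝ)⁻¹ := by positivity
    linarith

end Pool.Agent.H.MP_656320_nt.NS
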