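import Pool.Agent.H.MP_656320_nt.NS.HA
import Pool.Agent.H.MP_656320_nt.NS.HB

/-!
# NS/H: splitting off the squarefull part

For `1 ≤ b` let `fb f b` be `f` on the squarefree numbers prime to `b` and zero elsewhere. `decomp`: split the `m ≤ u` into those with
`bf m ≤ Y ^ 3` and the others. The others have a square divisor `d ^ 2` with `d > Y` (`bf_cube`), so there are at most `u / Y` of them
(`big_count`), and `|f m| ≤ 1`. The first ones are grouped by `b = bf m` (`Finset.sum_fiberwise_of_maps_to`, values in `Icc 1 (Y ^ 3)`): the fibre of `b` is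
empty or (by `bf_dvd`, `bf_sq`, `bf_mul`) the set of the `b * c`, `c ≤ u / b` squarefree and prime to `b`, and `f (b * c) = f b * f c`, so that the
sum over the fibre is `f b * G (fb f b) (u / b)` or zero, of absolute value at most `|G (fb f b) (u / b)|`.
-/

namespace Pool.Agent.H.MP_656320_nt.NS

open Finset Filter Topology Pool.Agent.H.MP_656320_nt Pool.Agent.H.MP_656320_nt.LS

open Classical in
/-- `f` on the squarefree numbers prime to `b` -/
noncomputable def fb (f : ℕ → ℝ) (b m : ℕ) : ℝ := if Squarefree m ∧ m.Coprime b then f m else 0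

theorem H_fibre {f : ℕ → ℝ} (hf : Mu f) {Y : ℕ} (u b : ℕ) (hb : 1 ≤ b) (hbY : b ≤ Y ^ 3) :
    |∑ m ∈ ((Icc 1 u).filter (fun m => bf m ≤ Y ^ 3)).filter (fun m => bf m = b), f m|
      ≤ |G (fb f b) (u / b)| := by
  classical
  rcases Finset.eq_empty_or_nonempty
    (((Icc 1 u).filter (fun m => bf m ≤ Y ^ 3)).filter (fun m => bf m = b)) with he | ⟨m0, hm0⟩
  · rw [he, Finset.sum_empty, abs_zero]
    exact abs_nonneg _
  · rw [Finset.mem_filter, Finset.mem_filter, Finset.mem_Icc] at hm0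
    have hm01 : 1 ≤ m0 := hm0.1.1.1
    have hm0b : bf m0 = b := hm0.2
    have h1 : G (fb f b) (u / b)
        = ∑ c ∈ (Icc 1 (u / b)).filter (fun c => Squarefree c ∧ c.Coprime b), f c := by
      unfold G fb
      rw [Finset.sum_filter]
    have h2 : ∑ m ∈ ((Icc 1 u).filter (fun m => bf m ≤ Y ^ 3)).filter (fun m => bf m = b), f m
        = ∑ c ∈ (Icc 1 (u / b)).filter (fun c => Squarefree c ∧ c.Coprime b), f b * f c := by
      refine Finset.sum_nbij' (fun m => m / b) (fun c => b * c) ?_ ?_ ?_ ?_ ?_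
      · intro m hm
        rw [Finset.mem_filter, Finset.mem_filter, Finset.mem_Icc] at hm
        obtain ⟨⟨⟨h3, h4⟩, _⟩, h6⟩ := hm
        have h7 := bf_sq h3
        have h8 := bf_dvd h3
        rw [h6] at h7 h8
        rw [Finset.mem_filter, Finset.mem_Icc]
        refine ⟨⟨?_, Nat.div_le_div_right h4⟩, h7⟩
        exact Nat.div_pos (Nat.le_of_dvd h3 h8) hb
      · intro c hc
        rw [Finset.mem_filter, Finset.mem_Icc] at hc
        obtain ⟨⟨h3, h4⟩, h5, h6⟩ := hc
        have h7 : bf (b * c) = b := by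
          have h8 := bf_mul hm01 h5 (by rw [hm0b]; exact h6)
          rw [hm0b] at h8
          exact h8
        rw [Finset.mem_filter, Finset.mem_filter, Finset.mem_Icc]
        refine ⟨⟨⟨Nat.mul_pos hb h3, ?_⟩, ?_⟩, h7⟩
        · exact (Nat.mul_le_mul_left b h4).trans (Nat.mul_div_le u b)
        · rw [h7]; exact hbY
      · intro m hm
        rw [Finset.mem_filter, Finset.mem_filter, Finset.mem_Icc] at hm
        obtain ⟨⟨⟨h3, _⟩, _⟩, h6⟩ := hm
        have h8 := bf_dvd h3
        rw [h6] at h8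
        exact Nat.mul_div_cancel' h8
      · intro c _
        exact Nat.mul_div_cancel_left c hb
      · intro m hm
        rw [Finset.mem_filter, Finset.mem_filter, Finset.mem_Icc] at hm
        obtain ⟨⟨⟨h3, _⟩, _⟩, h6⟩ := hm
        have h7 := bf_sq h3
        have h8 := bf_dvd h3
        rw [h6] at h7 h8
        show f m = f b * f (m / b)
        rw [← hf.mul b (m / b) h7.2.symm, Nat.mul_div_cancel' h8]
    rw [h2, ← Finset.mul_sum, ← h1, abs_mul]
    exact mul_le_of_le_one_left (abs_nonneg _) (hf.le b)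

theorem decomp {f : ℕ → ℝ} (hf : Mu f) {Y : ℕ} (hY : 1 ≤ Y) (u : ℕ) :
    |G f u| ≤ ∑ b ∈ Icc 1 (Y ^ 3), |G (fb f b) (u / b)| + (u : ℝ) / Y := by
  classical
  have h0 : G f u = ∑ m ∈ (Icc 1 u).filter (fun m => bf m ≤ Y ^ 3), f m
      + ∑ m ∈ (Icc 1 u).filter (fun m => ¬ bf m ≤ Y ^ 3), f m := by
    unfold G
    exact (Finset.sum_filter_add_sum_filter_not _ _ _).symm
  rw [h0]
  refine (abs_add_le _ _).trans (add_le_add ?_ ?_)
  · have h1 : ∀ m ∈ (Icc 1 u).filter (fun m => bf m ≤ Y ^ 3), bf m ∈ Icc 1 (Y ^ 3) := by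
      intro m hm
      rw [Finset.mem_filter] at hm
      exact Finset.mem_Icc.2 ⟨bf_pos m, hm.2⟩
    rw [← Finset.sum_fiberwise_of_maps_to h1]
    refine (Finset.abs_sum_le_sum_abs _ _).trans (Finset.sum_le_sum fun b hb => ?_)
    rw [Finset.mem_Icc] at hb
    exact H_fibre hf u b hb.1 hb.2
  · refine (Finset.abs_sum_le_sum_abs _ _).trans ?_
    refine (Finset.sum_le_card_nsmul _ _ (1 : ℝ) fun m _ => hf.le m).trans ?_
    rw [nsmul_eq_mul, mul_one]
    refine le_trans ?_ (big_count hY u)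
    refine Nat.cast_le.2 (Finset.card_le_card ?_)
    intro m hm
    rw [Finset.mem_filter, Finset.mem_Icc] at hm
    obtain ⟨d, hd1, hd2⟩ := bf_cube hm.1.1
    rw [Finset.mem_filter, Finset.mem_Icc]
    refine ⟨hm.1, d, ?_, hd1⟩
    by_contra hle
    exact hm.2 (hd2.trans (Nat.pow_le_pow_left (not_lt.1 hle) 3))

end Pool.Agent.H.MP_656320_nt.NS
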