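import Pool.Agent.H.MP_656320_nt.NS.Df

/-!
# NS/HA: the squarefull part of an integer

`bf m` is the product of the prime powers `p ^ e`, `e ≥ 2`, which exactly divide `m`. `bf_cube`: `d = ∏ p ^ (e / 2)` over the same `p`;
`d ^ 2 ∣ m`, `d ^ 3 ≥ bf m` as `3 * (e / 2) ≥ e` for `e ≥ 2`. Factorizations: `Nat.factorization_prod_pow_eq_self`, `Nat.eq_of_factorization_eq`,
`Nat.squarefree_iff_factorization_le_one`, `Nat.factorization_mul_of_coprime`; for inspiration Pool/Agent/H/MP_f7abb8_nt/Cnt18/Full.lean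
(copy what you need, do not import). The three parts of `bf_sq` determine `bf m`: `m = bf m * c`, `c` squarefree, prime to `bf m`.
-/

namespace Pool.Agent.H.MP_656320_nt.NS

open Finset

/-- the squarefull part -/
noncomputable def bf (m : ℕ) : ℕ :=
  ∏ p ∈ m.primeFactors.filter (fun p => 2 ≤ m.factorization p), p ^ m.factorization p

theorem bf_pos (m : ℕ) : 1 ≤ bf m := by
  unfold bf
  exact Finset.prod_pos fun p hp =>
    pow_pos (Nat.prime_of_mem_primeFactors (Finset.mem_filter.1 hp).1).pos _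

/-- the other part -/
private noncomputable def HA_c (m : ℕ) : ℕ :=
  ∏ p ∈ m.primeFactors.filter (fun p => ¬ 2 ≤ m.factorization p), p ^ m.factorization p

private theorem HA_eq {m : ℕ} (hm : 1 ≤ m) : bf m * HA_c m = m := by
  unfold bf HA_c
  rw [Finset.prod_filter_mul_prod_filter_not]
  have h := Nat.prod_factorization_pow_eq_self (n := m) (by omega)
  rw [Finsupp.prod, Nat.support_factorization] at h
  exact h

theorem bf_dvd {m : ℕ} (hm : 1 ≤ m) : bf m ∣ m := ⟨HA_c m, (HA_eq hm).symm⟩

private theorem HA_div {m : ℕ} (hm : 1 ≤ m) : m / bf m = HA_c m := by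
  exact Nat.div_eq_of_eq_mul_right (bf_pos m) (HA_eq hm).symm

private theorem HA_one {m p : ℕ} (h : p ∈ m.primeFactors.filter
    (fun p => ¬ 2 ≤ m.factorization p)) : m.factorization p = 1 ∧ p.Prime := by
  obtain ⟨h1, h2⟩ := Finset.mem_filter.1 h
  have h3 := Nat.prime_of_mem_primeFactors h1
  have h4 : m.factorization p ≠ 0 := by
    rw [← Nat.support_factorization, Finsupp.mem_support_iff] at h1
    exact h1
  exact ⟨by omega, h3⟩

theorem bf_sq {m : ℕ} (hm : 1 ≤ m) : Squarefree (m / bf m) ∧ (m / bf m).Coprime (bf m) := by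
  rw [HA_div hm]
  constructor
  · rw [Nat.squarefree_iff_prime_squarefree]
    intro q hq hqq
    unfold HA_c at hqq
    have h1 : ∏ p ∈ m.primeFactors.filter (fun p => ¬ 2 ≤ m.factorization p),
        p ^ m.factorization p =
        ∏ p ∈ m.primeFactors.filter (fun p => ¬ 2 ≤ m.factorization p), p :=
      Finset.prod_congr rfl fun p hp => by rw [(HA_one hp).1, pow_one]
    rw [h1] at hqq
    have h2 : q ∣ ∏ p ∈ m.primeFactors.filter (fun p => ¬ 2 ≤ m.factorization p), p :=
      (dvd_mul_right q q).trans hqq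
    obtain ⟨r, hr, hqr⟩ := (Prime.dvd_finsetProd_iff hq.prime _).1 h2
    have h3 : q = r := (Nat.prime_dvd_prime_iff_eq hq (HA_one hr).2).1 hqr
    subst h3
    rw [← Finset.mul_prod_erase _ _ hr] at hqq
    have h4 := Nat.dvd_of_mul_dvd_mul_left hq.pos hqq
    obtain ⟨r, hr, hqr⟩ := (Prime.dvd_finsetProd_iff hq.prime _).1 h4
    obtain ⟨hr1, hr2⟩ := Finset.mem_erase.1 hr
    exact hr1 ((Nat.prime_dvd_prime_iff_eq hq (HA_one hr2).2).1 hqr).symm
  · unfold HA_c bf
    refine Nat.Coprime.prod_left fun p hp => Nat.Coprime.prod_right fun q hq => ?_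
    refine Nat.Coprime.pow _ _ ?_
    rw [Nat.coprime_primes (HA_one hp).2
      (Nat.prime_of_mem_primeFactors (Finset.mem_filter.1 hq).1)]
    rintro rfl
    exact (Finset.mem_filter.1 hp).2 (Finset.mem_filter.1 hq).2

private theorem HA_fact (m : ℕ) (p : ℕ) : (bf m).factorization p =
    if 2 ≤ m.factorization p then m.factorization p else 0 := by
  have h1 : bf m = (m.factorization.filter (fun p => 2 ≤ m.factorization p)).prod (· ^ ·) := by
    unfold bf
    rw [Finsupp.prod_filter_index, Finsupp.support_filter, Nat.support_factorization]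
  rw [h1, Nat.prod_pow_factorization_eq_self, Finsupp.filter_apply]
  intro q hq
  rw [Finsupp.support_filter, Nat.support_factorization] at hq
  exact Nat.prime_of_mem_primeFactors (Finset.mem_filter.1 hq).1

theorem bf_mul {m c : ℕ} (hm : 1 ≤ m) (hc : Squarefree c) (h : c.Coprime (bf m)) : bf (bf m * c) = bf m := by
  have hb0 : bf m ≠ 0 := by
    have := bf_pos m
    omega
  have hc0 : c ≠ 0 := hc.ne_zero
  have hbc0 : bf m * c ≠ 0 := mul_ne_zero hb0 hc0
  refine Nat.eq_of_factorization_eq ?_ hb0 fun p => ?_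
  · have := bf_pos (bf m * c)
    omega
  rw [HA_fact, Nat.factorization_mul hb0 hc0, Finsupp.add_apply]
  have h1 : c.factorization p ≤ 1 := (Nat.squarefree_iff_factorization_le_one hc0).1 hc p
  have h2 : c.factorization p = 0 ∨ (bf m).factorization p = 0 := by
    by_contra h3
    push Not at h3
    have h4 : p ∈ c.primeFactors := by
      rw [← Nat.support_factorization, Finsupp.mem_support_iff]
      exact h3.1
    have h5 : p ∈ (bf m).primeFactors := by
      rw [← Nat.support_factorization, Finsupp.mem_support_iff]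
      exact h3.2
    have h6 := Nat.eq_one_of_dvd_coprimes h (Nat.dvd_of_mem_primeFactors h4)
      (Nat.dvd_of_mem_primeFactors h5)
    exact (Nat.prime_of_mem_primeFactors h4).one_lt.ne' h6
  have h7 := HA_fact m p
  split_ifs at h7 ⊢ <;> omega

theorem bf_cube {m : ℕ} (hm : 1 ≤ m) : ∃ d : ℕ, d ^ 2 ∣ m ∧ bf m ≤ d ^ 3 := by
  refine ⟨∏ p ∈ m.primeFactors.filter (fun p => 2 ≤ m.factorization p),
    p ^ (m.factorization p / 2), ?_, ?_⟩
  · refine dvd_trans ?_ (bf_dvd hm)
    unfold bf
    rw [← Finset.prod_pow]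
    refine Finset.prod_dvd_prod_of_dvd _ _ fun p _ => ?_
    rw [← pow_mul]
    exact pow_dvd_pow p (Nat.div_mul_le_self _ 2)
  · unfold bf
    rw [← Finset.prod_pow]
    refine Finset.prod_le_prod' fun p hp => ?_
    obtain ⟨h1, h2⟩ := Finset.mem_filter.1 hp
    rw [← pow_mul]
    exact Nat.pow_le_pow_right (Nat.prime_of_mem_primeFactors h1).pos (by omega)

end Pool.Agent.H.MP_656320_nt.NS
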