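import Pool.Agent.H.MP_656320_nt.NS.E
import Pool.Agent.H.MP_656320_nt.NS.F

/-!
# NS/Q: the mean values tend to zero on the squarefree numbers

`step`: with `q = max (1 - δ ^ 2) 0`, `Bd (Sq P) s` implies `Bd (Sq P) (q * s + ε)`. If `s ≤ ε` trivial (`Bd` is monotone in `s`, `q, s ≥ 0`).
Otherwise take `ε1 = min δ 1 * ε / 2`, `s1 = max ((1 - δ) * s) 0 + ε1`, so `0 ≤ s1 ≤ s` (as `ε1 ≤ δ * s` and `ε1 ≤ s`); `up` with `ε1` gives the
upper bound `s1`; `down` with `ε1` gives the lower bound `s - δ * (s - s1) + ε1`; both are at most `q * s + ε`: if `δ ≤ 1` then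
`s1 = (1 - δ) s + ε1` and `s - δ (s - s1) = (1 - δ ^ 2) s + δ ε1`; if `δ > 1` then `s1 = ε1` and `s - δ (s - s1) = (1 - δ) s + δ ε1 ≤ δ ε1`, `q = 0`
(`δ ε1 + ε1 ≤ ε`? choose `ε1` smaller if needed, for instance `ε1 = ε * min δ 1 / (2 * (1 + δ))`).
`small`: `Bd (Sq P) 1` (`G_le`), by induction `Bd (Sq P) (q ^ n + ε)` (`q (q ^ n + ε) + (1 - q) ε = q ^ (n + 1) + ε`), `q < 1`, choose `n` with `q ^ n ≤ ε`.
-/

namespace Pool.Agent.H.MP_656320_nt.NS

open Finset Filter Topology Pool.Agent.H.MP_656320_nt Pool.Agent.H.MP_656320_nt.LS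

theorem Bd_mono {F : Set (ℕ → ℝ)} {s s' : ℝ} (hs : s ≤ s') (h : Bd F s) : Bd F s' := by
  obtain ⟨C, hC⟩ := h
  refine ⟨C, fun f hf u => (hC f hf u).trans ?_⟩
  have := mul_le_mul_of_nonneg_right hs (Nat.cast_nonneg (α := ℝ) u)
  linarith

theorem step {P : Set ℕ} {δ s : ℝ} (hδ : 0 < δ) (hP : Den P δ) (hs : 0 ≤ s) (h : Bd (Sq P) s) (ε : ℝ) (hε : 0 < ε) :
    Bd (Sq P) (max (1 - δ ^ 2) 0 * s + ε) := by
  obtain ⟨q, hq⟩ : ∃ q, q = max (1 - δ ^ 2) 0 := ⟨_, rfl⟩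
  rw [← hq]
  have hq0 : 0 ≤ q := by rw [hq]; exact le_max_right _ _
  have hq1 : 1 - δ ^ 2 ≤ q := by rw [hq]; exact le_max_left _ _
  have hqs : 0 ≤ q * s := mul_nonneg hq0 hs
  rcases le_or_gt s ε with hsε | hsε
  · exact Bd_mono (by linarith) h
  obtain ⟨e, he⟩ : ∃ e, e = ε * min δ 1 / (2 * (1 + δ)) := ⟨_, rfl⟩
  have hm0 : 0 < min δ 1 := lt_min hδ one_pos
  have he0 : 0 < e := by rw [he]; positivity
  have he1 : (1 + δ) * e = ε * min δ 1 / 2 := by
    rw [he]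
    field_simp
  have he2 : (1 + δ) * e ≤ ε / 2 := by
    rw [he1]
    have : ε * min δ 1 ≤ ε * 1 := mul_le_mul_of_nonneg_left (min_le_right _ _) hε.le
    linarith
  have he3 : (1 + δ) * e ≤ ε * δ / 2 := by
    rw [he1]
    have : ε * min δ 1 ≤ ε * δ := mul_le_mul_of_nonneg_left (min_le_left _ _) hε.le
    linarith
  have he4 : e ≤ (1 + δ) * e := by nlinarith
  obtain ⟨s1, hs1⟩ : ∃ s1, s1 = max ((1 - δ) * s) 0 + e := ⟨_, rfl⟩
  have h10 : 0 ≤ s1 := by
    rw [hs1]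
    have := le_max_right ((1 - δ) * s) 0
    linarith
  have h1s : s1 ≤ s := by
    have h2 : max ((1 - δ) * s) 0 ≤ s - e := by
      refine max_le ?_ (by linarith)
      have h3 : ε * δ ≤ δ * s := by nlinarith
      nlinarith
    linarith
  have hqa : max ((1 - δ) * s) 0 ≤ q * s := by
    refine max_le ?_ hqs
    rcases le_or_gt δ 1 with hd | hd
    · refine mul_le_mul_of_nonneg_right (le_trans ?_ hq1) hs
      nlinarith
    · nlinarith
  obtain ⟨C1, hC1⟩ := up hδ.le hP hs h e he0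
  have hu1 : ∀ f ∈ Sq P, ∀ u : ℕ, G f u ≤ s1 * u + C1 := by
    intro f hf u
    refine (hC1 f hf u).trans ?_
    have h2 : (1 - δ) * s + e ≤ s1 := by
      rw [hs1]
      have := le_max_left ((1 - δ) * s) 0
      linarith
    have := mul_le_mul_of_nonneg_right h2 (Nat.cast_nonneg (α := ℝ) u)
    linarith
  obtain ⟨C2, hC2⟩ := down hP h10 h1s h ⟨C1, hu1⟩ e he0
  have hb : s - δ * (s - s1) + e ≤ q * s + ε := by
    rcases le_or_gt δ 1 with hd | hd
    · have h2 : max ((1 - δ) * s) 0 = (1 - δ) * s := max_eq_left (by nlinarith)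
      rw [h2] at hs1
      rw [hs1]
      have h3 : (1 - δ ^ 2) * s ≤ q * s := mul_le_mul_of_nonneg_right hq1 hs
      nlinarith
    · have h2 : max ((1 - δ) * s) 0 = 0 := max_eq_right (by nlinarith)
      rw [h2, zero_add] at hs1
      rw [hs1]
      nlinarith
  have ha : s1 ≤ q * s + ε := by
    rw [hs1]
    linarith
  refine ⟨max C1 C2, fun f hf u => abs_le.2 ⟨?_, ?_⟩⟩
  · have h2 := hC2 f hf u
    have h3 := mul_le_mul_of_nonneg_right hb (Nat.cast_nonneg (α := ℝ) u)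
    have h4 := le_max_right C1 C2
    linarith
  · have h2 := hu1 f hf u
    have h3 := mul_le_mul_of_nonneg_right ha (Nat.cast_nonneg (α := ℝ) u)
    have h4 := le_max_left C1 C2
    linarith

theorem small {P : Set ℕ} {δ : ℝ} (hδ : 0 < δ) (hP : Den P δ) (ε : ℝ) (hε : 0 < ε) : Bd (Sq P) ε := by
  obtain ⟨q, hq⟩ : ∃ q, q = max (1 - δ ^ 2) 0 := ⟨_, rfl⟩
  have hq0 : 0 ≤ q := by rw [hq]; exact le_max_right _ _
  have hq1 : q < 1 := by
    rw [hq]
    exact max_lt (by nlinarith) one_pos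
  have key : ∀ n : ℕ, ∀ ε : ℝ, 0 < ε → Bd (Sq P) (q ^ n + ε) := by
    intro n
    induction n with
    | zero =>
      intro ε hε
      refine Bd_mono (s := 1) (by rw [pow_zero]; linarith) ⟨0, fun f hf u => ?_⟩
      have := G_le hf.1 u
      linarith
    | succ n ih =>
      intro ε hε
      have h1 := step hδ hP (by positivity) (ih (ε / 2) (half_pos hε)) (ε / 2) (half_pos hε)
      rw [← hq] at h1
      refine Bd_mono ?_ h1
      rw [pow_succ]
      nlinarith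
  obtain ⟨n, hn⟩ := exists_pow_lt_of_lt_one (half_pos hε) hq1
  exact Bd_mono (by linarith) (key n (ε / 2) (half_pos hε))

end Pool.Agent.H.MP_656320_nt.NS
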