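import Pool.Agent.H.MP_656320_nt.NS.H
import Pool.Agent.H.MP_656320_nt.NS.Q

/-!
# NS/I: the mean values tend to zero

`Den_of`: from the limit (`tP P u / u → δ`) to the form with a constant; removing the primes dividing `b` changes `tP` by at most
`∑ p ∈ b.primeFactors, log p`. `fb_mem`: `fb f b` is in `Sq {p | p ∈ P ∧ ¬ p ∣ b}`.
`mean`: given `ε` take `Y` with `1 / Y ≤ ε / 2`, and for each `b ≤ Y ^ 3` the bound `small` with `ε / (2 * Y ^ 3)` for the set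
`{p | p ∈ P ∧ ¬ p ∣ b}`; add up with `decomp` (`(u / b : ℕ) ≤ u`).
-/

namespace Pool.Agent.H.MP_656320_nt.NS

open Finset Filter Topology Pool.Agent.H.MP_656320_nt Pool.Agent.H.MP_656320_nt.LS

theorem I_diff (P : Set ℕ) {b : ℕ} (hb : 1 ≤ b) (u : ℕ) :
    |tP P u - tP {p | p ∈ P ∧ ¬ p ∣ b} u| ≤ ∑ p ∈ b.primeFactors, Real.log p := by
  classical
  have h1 : tP P u = ∑ p ∈ (pr P u).filter (fun p => ¬ p ∣ b), Real.log p +
      ∑ p ∈ (pr P u).filter (fun p => ¬ ¬ p ∣ b), Real.log p :=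
    (Finset.sum_filter_add_sum_filter_not (pr P u) (fun p => ¬ p ∣ b) _).symm
  have h2 : tP {p | p ∈ P ∧ ¬ p ∣ b} u = ∑ p ∈ (pr P u).filter (fun p => ¬ p ∣ b), Real.log p := by
    unfold tP
    refine Finset.sum_congr ?_ fun _ _ => rfl
    ext p
    simp only [pr, Finset.mem_filter, Set.mem_ofPred_eq]
    tauto
  have h3 : (pr P u).filter (fun p => ¬ ¬ p ∣ b) ⊆ b.primeFactors := by
    intro p hp
    simp only [pr, Finset.mem_filter, not_not] at hp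
    exact Nat.mem_primeFactors.2 ⟨hp.1.2.1, hp.2, by omega⟩
  have h4 : 0 ≤ ∑ p ∈ (pr P u).filter (fun p => ¬ ¬ p ∣ b), Real.log p :=
    Finset.sum_nonneg fun p _ => Real.log_natCast_nonneg p
  have h5 : ∑ p ∈ (pr P u).filter (fun p => ¬ ¬ p ∣ b), Real.log p ≤
      ∑ p ∈ b.primeFactors, Real.log p :=
    Finset.sum_le_sum_of_subset_of_nonneg h3 fun p _ _ => Real.log_natCast_nonneg p
  rw [h1, h2, add_sub_cancel_left, abs_of_nonneg h4]
  exact h5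

theorem Den_of {P : Set ℕ} {δ : ℝ} (h : Tendsto (fun u : ℕ => tP P u / u) atTop (𝓝 δ)) {b : ℕ} (hb : 1 ≤ b) :
    Den {p | p ∈ P ∧ ¬ p ∣ b} δ := by
  intro ε hε
  obtain ⟨N, hN⟩ := Metric.tendsto_atTop.1 h ε hε
  refine ⟨∑ v ∈ Finset.range (N + 1), |tP P v - δ * v| + ∑ p ∈ b.primeFactors, Real.log p,
    fun u => ?_⟩
  have h1 := I_diff P hb u
  have h2 : |tP P u - δ * u| ≤ ε * u + ∑ v ∈ Finset.range (N + 1), |tP P v - δ * v| := by
    have h0 : 0 ≤ ∑ v ∈ Finset.range (N + 1), |tP P v - δ * v| :=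
      Finset.sum_nonneg fun _ _ => abs_nonneg _
    rcases Nat.lt_or_ge u (N + 1) with hu | hu
    · have h3 : |tP P u - δ * u| ≤ ∑ v ∈ Finset.range (N + 1), |tP P v - δ * v| :=
        Finset.single_le_sum (f := fun v : ℕ => |tP P v - δ * v|) (fun _ _ => abs_nonneg _)
          (Finset.mem_range.2 hu)
      have h4 : 0 ≤ ε * (u : ℝ) := by positivity
      linarith
    · have h3 := hN u (by omega)
      rw [Real.dist_eq] at h3
      have hu0 : (0 : ℝ) < u := by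
        have : 0 < u := by omega
        exact_mod_cast this
      have h4 : tP P u - δ * u = (tP P u / u - δ) * u := by
        field_simp
      rw [h4, abs_mul, abs_of_pos hu0]
      have h5 := mul_le_mul_of_nonneg_right h3.le hu0.le
      linarith
  have h3 : |tP {p | p ∈ P ∧ ¬ p ∣ b} u - δ * u| ≤
      |tP P u - tP {p | p ∈ P ∧ ¬ p ∣ b} u| + |tP P u - δ * u| := by
    have h4 : tP {p | p ∈ P ∧ ¬ p ∣ b} u - δ * u =
        -(tP P u - tP {p | p ∈ P ∧ ¬ p ∣ b} u) + (tP P u - δ * u) := by ring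
    rw [h4]
    refine (abs_add_le _ _).trans ?_
    rw [abs_neg]
  linarith

theorem fb_mem {P : Set ℕ} {f : ℕ → ℝ} (hf : Mu f) {b c : ℕ} (hP : ∀ p ∈ P, p.Prime → ¬ p ∣ c → f p = -1) :
    fb f b ∈ Sq {p | p ∈ P ∧ ¬ p ∣ b * c} := by
  refine ⟨⟨fun m => ?_, fun m n hmn => ?_⟩, fun m hm => ?_, ?_⟩
  · unfold fb
    split
    · exact hf.le m
    · simp
  · unfold fb
    have g1 := Nat.squarefree_mul hmn
    have g2 : (m * n).Coprime b ↔ m.Coprime b ∧ n.Coprime b := Nat.coprime_mul_iff_left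
    by_cases h1 : Squarefree m ∧ m.Coprime b
    · by_cases h2 : Squarefree n ∧ n.Coprime b
      · rw [if_pos ⟨g1.2 ⟨h1.1, h2.1⟩, g2.2 ⟨h1.2, h2.2⟩⟩, if_pos h1, if_pos h2, hf.mul m n hmn]
      · rw [if_neg (fun h => h2 ⟨(g1.1 h.1).2, (g2.1 h.2).2⟩), if_neg h2, mul_zero]
    · rw [if_neg (fun h => h1 ⟨(g1.1 h.1).1, (g2.1 h.2).1⟩), if_neg h1, zero_mul]
  · unfold fb
    rw [if_neg (fun h => hm h.1)]
  · rintro p ⟨hp1, hp2⟩ hp
    unfold fb
    have h1 : ¬ p ∣ b := fun h => hp2 (h.mul_right c)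
    have h2 : ¬ p ∣ c := fun h => hp2 (h.mul_left b)
    rw [if_pos ⟨hp.prime.squarefree, (Nat.Prime.coprime_iff_not_dvd hp).2 h1⟩]
    exact hP p hp1 hp h2

/-- Uniform mean value zero: multiplicative `f` with `|f| ≤ 1` which are `-1` at the primes of `P` not dividing `c`. -/
theorem mean {P : Set ℕ} {δ : ℝ} (hδ : 0 < δ) (h : Tendsto (fun u : ℕ => tP P u / u) atTop (𝓝 δ)) {c : ℕ} (hc : 1 ≤ c)
    (ε : ℝ) (hε : 0 < ε) :
    ∃ C : ℝ, ∀ f : ℕ → ℝ, Mu f → (∀ p ∈ P, p.Prime → ¬ p ∣ c → f p = -1) → ∀ u : ℕ, |G f u| ≤ ε * u + C := by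
  obtain ⟨Y, hY⟩ := exists_nat_gt (2 / ε)
  have hY0 : (0 : ℝ) < Y := lt_trans (by positivity) hY
  have hY1 : 1 ≤ Y := by
    have : 0 < Y := by exact_mod_cast hY0
    omega
  have hYe : 1 / (Y : ℝ) ≤ ε / 2 := by
    rw [div_lt_iff₀ hε] at hY
    rw [div_le_div_iff₀ hY0 (by norm_num)]
    linarith
  have hb : ∀ b : ℕ, ∃ C : ℝ, 1 ≤ b → ∀ f ∈ Sq {p | p ∈ P ∧ ¬ p ∣ b * c}, ∀ u : ℕ,
      |G f u| ≤ ε / (2 * Y ^ 3) * u + C := by
    intro b
    by_cases h1 : 1 ≤ b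
    · have h2 : 1 ≤ b * c := Nat.mul_pos h1 hc
      obtain ⟨C, hC⟩ := small hδ (Den_of h h2) (ε / (2 * Y ^ 3)) (by positivity)
      exact ⟨C, fun _ => hC⟩
    · exact ⟨0, fun h => absurd h h1⟩
  choose C hC using hb
  refine ⟨∑ b ∈ Icc 1 (Y ^ 3), |C b|, fun f hf hfP u => ?_⟩
  have h1 := decomp hf hY1 u
  have h2 : ∑ b ∈ Icc 1 (Y ^ 3), |G (fb f b) (u / b)| ≤
      ∑ b ∈ Icc 1 (Y ^ 3), (ε / (2 * Y ^ 3) * u + |C b|) := by
    refine Finset.sum_le_sum fun b hb => ?_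
    have hb1 := (Finset.mem_Icc.1 hb).1
    have h3 := hC b hb1 (fb f b) (fb_mem hf hfP) (u / b)
    have h4 : ((u / b : ℕ) : ℝ) ≤ u := by exact_mod_cast Nat.div_le_self u b
    have h5 : ε / (2 * (Y : ℝ) ^ 3) * ((u / b : ℕ) : ℝ) ≤ ε / (2 * Y ^ 3) * u :=
      mul_le_mul_of_nonneg_left h4 (by positivity)
    have h6 := le_abs_self (C b)
    linarith
  have h3 : ∑ b ∈ Icc 1 (Y ^ 3), (ε / (2 * (Y : ℝ) ^ 3) * u + |C b|) =
      ε / 2 * u + ∑ b ∈ Icc 1 (Y ^ 3), |C b| := by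
    rw [Finset.sum_add_distrib, Finset.sum_const, Nat.card_Icc, nsmul_eq_mul]
    congr 1
    have h4 : ((Y ^ 3 + 1 - 1 : ℕ) : ℝ) = (Y : ℝ) ^ 3 := by
      rw [Nat.add_sub_cancel]
      push_cast
      ring
    rw [h4]
    field_simp
  have h4 : (u : ℝ) / Y ≤ ε / 2 * u := by
    have h5 : (u : ℝ) / Y = 1 / Y * u := by ring
    rw [h5]
    exact mul_le_mul_of_nonneg_right hYe (Nat.cast_nonneg u)
  linarith

end Pool.Agent.H.MP_656320_nt.NS
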