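import Pool.Agent.H.MP_656320_nt.NS.I
import Pool.Agent.H.MP_656320_nt.LS.SmT
import Pool.Agent.H.MP_656320_nt.LS.Lb

/-!
# NS/Main: the signs at the integers with a large square divisor
-/

namespace Pool.Agent.H.MP_656320_nt.NS

open Finset Filter Topology Pool.Agent.H.MP_656320_nt Pool.Agent.H.MP_656320_nt.LS

theorem main {l N : ℕ} (hN : 1 ≤ N) {χ : ℕ → ℂ} {L : ℕ → ℝ} {a : ℕ → ℝ}
    (h : Hecke l N χ (fun p => (L p : ℂ)) a) (hχ : ∀ p : ℕ, p.Prime → ¬ p ∣ N → χ p ^ 2 = 1)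
    {δ : ℝ} (hδ : 0 < δ)
    (hM : Tendsto (fun u : ℕ => tP {p | L p < - (p : ℝ) ^ ((l : ℤ) - 1)} u / u) atTop (𝓝 δ)) :
    (∀ ε > 0, ∃ z0 : ℕ, ∀ z x : ℕ, z0 ≤ z → ∀ T : Set ℕ,
      |(cnt {n | 0 < a n ∧ n ∈ DT N z T} x : ℝ) - cnt {n | a n < 0 ∧ n ∈ DT N z T} x| ≤
        ε * x / z) ∧
    ∀ z x : ℕ, N ≤ z → 9 * z ^ 2 ≤ x → (x : ℝ) / (72 * N * z) ≤ cnt (DT N z Set.univ) x := by
  have h1 := fun ε hε => mean hδ hM hN ε hε
  refine ⟨sum_smallT (fun ε hε => ?_) (fun t ht hat m hm hmN => ?_), fun z x hz hx => ?_⟩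
  · obtain ⟨C, hC⟩ := h1 ε hε
    exact ⟨C, fun t ht hat u => hC _ (ft_mu h ht hat)
      (fun p hp hpp hpN => (ft_prime h hχ ht hat hpp hpN).2 hp) u⟩
  · obtain ⟨G, -, -, hG⟩ := exists_G h hm hmN
    rw [hG t ht.1 (fun p hp hpm => ht.2 p hp (fun hpN => hp.one_lt.ne'
      (Nat.eq_one_of_dvd_coprimes hmN hpm hpN))), hat, mul_zero]
  · rw [SmT_univ]
    exact Dz_ge hN h.four hz hx

/-- The signs along one square class: the numbers of the `m ≤ y` prime to `N` with `a (t * m ^ 2) > 0` and with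
`a (t * m ^ 2) < 0` differ by at most `ε * y + C`, with `C` the same for all `t` in `Sf N`. -/
theorem unif {l N : ℕ} (hN : 1 ≤ N) {χ : ℕ → ℂ} {L : ℕ → ℝ} {a : ℕ → ℝ}
    (h : Hecke l N χ (fun p => (L p : ℂ)) a) (hχ : ∀ p : ℕ, p.Prime → ¬ p ∣ N → χ p ^ 2 = 1)
    {δ : ℝ} (hδ : 0 < δ)
    (hM : Tendsto (fun u : ℕ => tP {p | L p < - (p : ℝ) ^ ((l : ℤ) - 1)} u / u) atTop (𝓝 δ))
    (ε : ℝ) (hε : 0 < ε) : ∃ C : ℝ, ∀ t ∈ Sf N, ∀ y : ℕ,
      |(cnt {m | 0 < a (t * m ^ 2) ∧ m.Coprime N} y : ℝ) - cnt {m | a (t * m ^ 2) < 0 ∧ m.Coprime N} y| ≤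
        ε * y + C := by
  classical
  obtain ⟨C, hC⟩ := mean hδ hM hN ε hε
  refine ⟨|C|, fun t ht y => ?_⟩
  have h1 := cnt_sg (fun m => a (t * m ^ 2)) {m | m.Coprime N} y
  simp only [Set.mem_ofPred_eq] at h1
  rw [h1]
  by_cases hat : a t = 0
  · have h2 : ∑ m ∈ (Icc 1 y).filter (fun m => m.Coprime N), sg (a (t * m ^ 2)) = 0 := by
      refine Finset.sum_eq_zero fun m hm => ?_
      rw [Finset.mem_filter, Finset.mem_Icc] at hm
      obtain ⟨G, -, -, hG⟩ := exists_G h hm.1.1 hm.2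
      rw [hG t ht.1 (fun p hp hpm => ht.2 p hp (fun hpN => hp.one_lt.ne'
        (Nat.eq_one_of_dvd_coprimes hm.2 hpm hpN))), hat, mul_zero]
      exact FmA_sg_zero
    rw [h2, abs_zero]
    have := abs_nonneg C
    positivity
  · have h2 : ∑ m ∈ (Icc 1 y).filter (fun m => m.Coprime N), sg (a (t * m ^ 2)) =
        sg (a t) * G (ft N a t) y := by
      unfold G
      rw [sum_filter, mul_sum]
      refine sum_congr rfl fun m _ => ?_
      unfold ft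
      by_cases hm : m.Coprime N
      · rw [if_pos hm, if_pos hm]
        have h1 := FmA_sg_sq hat
        linear_combination (- sg (a (t * m ^ 2))) * h1
      · rw [if_neg hm, if_neg hm, mul_zero]
    rw [h2, abs_mul]
    have h3 := hC (ft N a t) (ft_mu h ht hat)
      (fun p hp hpp hpN => (ft_prime h hχ ht hat hpp hpN).2 hp) y
    have h4 := FmA_sg_abs (a t)
    have h5 : |sg (a t)| * |G (ft N a t) y| ≤ 1 * |G (ft N a t) y| :=
      mul_le_mul_of_nonneg_right h4 (abs_nonneg _)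
    have h6 := le_abs_self C
    linarith

end Pool.Agent.H.MP_656320_nt.NS
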